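import Mathlib
import Pool.Agent.K4H47.PM.Mu
import Pool.Agent.K4H77.PMsv
import Pool.Agent.K4H32.PMds

/-!
# Weighted power means with exponent 1/2 are monotonic for every Schatten metric

MP_9bce2c_an, Q1: is there a pair `(p, q)` with `p ≠ 1`, `q ≠ 2` such that the weighted power mean with
exponent `p` is monotonic with respect to the Schatten metric `δ_q`?  Yes: `p = 1/2`, every `q` in `[1, ∞]`.

Proof. Let `a = X^{1/2}`, `b = Y^{1/2}`, `c_t = t a + (1-t) b`, `M_t = c_t² - Y`. For `0 ≤ s ≤ t`, `x = s/t`,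
`M_s = x M_t - x (1-x) (c_t - b)²`, so by the triangle inequality and the inequality
`‖(c-b)²‖_q ≤ ‖c² - b²‖_q` (Powers-Størmer, Birman-Koplienko-Solomyak)
`‖M_s‖_q ≤ x (2 - x) ‖M_t‖_q ≤ ‖M_t‖_q`.
-/

set_option autoImplicit false

namespace Pool.Agent.Results.MP_9bce2c_an.ExponentOneHalf

open scoped ComplexOrder

/-- The weighted power mean `μ_t(X,Y) = (t X^p + (1-t) Y^p)^{1/p}`, powers by functional calculus. -/
noncomputable def powerMean (p t : ℝ) {n : ℕ} (X Y : Matrix (Fin n) (Fin n) ℂ) :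
    Matrix (Fin n) (Fin n) ℂ :=
  cfc (fun x : ℝ => x ^ (1 / p))
    ((t : ℂ) • cfc (fun x : ℝ => x ^ p) X + ((1 - t : ℝ) : ℂ) • cfc (fun x : ℝ => x ^ p) Y)

/-- The vector of the singular values of `A`: the square roots of the eigenvalues of `Aᴴ A`. -/
noncomputable def singularValues {n : ℕ} (A : Matrix (Fin n) (Fin n) ℂ) : Fin n → ℝ :=
  fun i => Real.sqrt ((Matrix.isHermitian_conjTranspose_mul_self A).eigenvalues i)

/-- The Schatten `q`-norm: the `ℓ_q` norm of the vector of the singular values. -/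
noncomputable def schattenNorm (q : ENNReal) {n : ℕ} (A : Matrix (Fin n) (Fin n) ℂ) : ℝ :=
  ‖(WithLp.toLp q (singularValues A) : PiLp q fun _ : Fin n => ℝ)‖

/-- The power mean with exponent `p` is monotonic with respect to `δ_q`: for every `n` and all positive
definite `X`, `Y` the function `t ↦ ‖μ_t(X,Y) - Y‖_q` is nondecreasing on `[0, 1]`. -/
def Monotonic (p : ℝ) (q : ENNReal) : Prop :=
  ∀ (n : ℕ) (X Y : Matrix (Fin n) (Fin n) ℂ), X.PosDef → Y.PosDef →
    MonotoneOn (fun t : ℝ => schattenNorm q (powerMean p t X Y - Y)) (Set.Icc 0 1)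

/-- **Power means with exponent `1/2` are monotonic for all Schatten metrics.** -/
theorem result (q : ENNReal) (hq : 1 ≤ q) : Monotonic (1 / 2) q := by
  have : Fact (1 ≤ q) := ⟨hq⟩
  intro n X Y hX hY s hs t ht hst
  have F : Pool.Agent.K4H47.PM.Facts q n :=
    ⟨fun W hW x => Pool.Agent.K4H47.PM.ds_contract q W hW x,
      fun x y h => Pool.Agent.K4H47.PM.lp_mono q x y h⟩
  obtain ⟨hMs, hMt, h⟩ := Pool.Agent.K4H47.PM.mono_half F X Y hX.posSemidef hY.posSemidef
    hs.1 hst ht.2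
  show schattenNorm q (Pool.Agent.K4H47.PM.mu (1 / 2) s X Y - Y)
    ≤ schattenNorm q (Pool.Agent.K4H47.PM.mu (1 / 2) t X Y - Y)
  unfold schattenNorm singularValues
  rw [Pool.Agent.K4H77.PM.schatten_herm q _ hMs, Pool.Agent.K4H77.PM.schatten_herm q _ hMt]
  exact h

end Pool.Agent.Results.MP_9bce2c_an.ExponentOneHalf
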